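import Pool.Agent.X161.MC.Exist

/-!
# MP_719c9c_nt: a strong MC number with an asymmetric MC-circle
-/

set_option autoImplicit false

namespace Pool.Agent.Results.MP_719c9c_nt.Asymmetric

open Pool.Agent.X161.MC

/-- The Euclidean plane. -/
abbrev Plane := EuclideanSpace ℝ (Fin 2)

/-- The lattice points. -/
def lattice : Set Plane := {v | ∀ i, ∃ m : ℤ, v i = m}

/-- The lattice points enclosed by the circle with centre `c` and radius `r`. -/
def enclosed (c : Plane) (r : ℝ) : Set Plane := lattice ∩ Metric.ball c r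

/-- The lattice points on the circle with centre `c` and radius `r`, i.e. `L(C)`. -/
def onCircle (c : Plane) (r : ℝ) : Set Plane := lattice ∩ Metric.sphere c r

/-- The circle with centre `c` and radius `r` is `n`-enclosing. -/
def IsEnclosing (n : ℕ) (c : Plane) (r : ℝ) : Prop := 0 < r ∧ (enclosed c r).encard = n

/-- The circle with centre `c` and radius `r` is an MC-circle of `n`, i.e. a largest `n`-enclosing
circle. -/
def IsMCCircle (n : ℕ) (c : Plane) (r : ℝ) : Prop :=
  IsEnclosing n c r ∧ ∀ c' r', IsEnclosing n c' r' → r' ≤ r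

/-- `n` is MC. -/
def IsMC (n : ℕ) : Prop := ∃ c r, IsMCCircle n c r

/-- `n` is a strong MC number. -/
def IsStrong (n : ℕ) : Prop := IsMC n ∧ ¬ IsMC (n + 1)

/-- `g` is the reflection in the line with the unit normal vector `u` and the equation `⟪u, x⟫ = t`. -/
def IsReflection (g : Plane → Plane) : Prop :=
  ∃ (u : Plane) (t : ℝ), ‖u‖ = 1 ∧ ∀ x, g x = x - (2 * (inner ℝ u x - t)) • u

/-- `g` is a lattice-invariant reflection. -/
def IsLatticeReflection (g : Plane → Plane) : Prop := IsReflection g ∧ g '' lattice = lattice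

/-- `L` has a mirror symmetry. -/
def HasMirrorSymmetry (L : Set Plane) : Prop := ∃ g, IsLatticeReflection g ∧ g '' L = L

/-! ### Coordinates -/

/-- The lattice point with the coordinates `p`. -/
noncomputable def pt (p : ℤ × ℤ) : Plane := !₂[(p.1 : ℝ), (p.2 : ℝ)]

lemma pt_mem (p : ℤ × ℤ) : pt p ∈ lattice := by
  intro i
  fin_cases i
  · exact ⟨p.1, rfl⟩
  · exact ⟨p.2, rfl⟩

lemma exists_pt {v : Plane} (hv : v ∈ lattice) : ∃ p, pt p = v := by
  obtain ⟨a, ha⟩ := hv 0
  obtain ⟨b, hb⟩ := hv 1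
  refine ⟨(a, b), ?_⟩
  ext i
  fin_cases i
  · exact ha.symm
  · exact hb.symm

lemma pt_inj : Function.Injective pt := by
  rintro ⟨a, b⟩ ⟨c, d⟩ h
  have h0 := congrArg (fun v : Plane => v 0) h
  have h1 := congrArg (fun v : Plane => v 1) h
  simp [pt] at h0 h1
  rw [h0, h1]

lemma dist_sq (v w : Plane) : dist v w ^ 2 = (v 0 - w 0) ^ 2 + (v 1 - w 1) ^ 2 := by
  rw [EuclideanSpace.dist_eq, Real.sq_sqrt (by positivity)]
  simp [Real.dist_eq]

lemma dist_pt (c : Plane) (p : ℤ × ℤ) : dist (pt p) c ^ 2 = sd (c 0) (c 1) p := by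
  rw [dist_sq]
  rfl

lemma mem_ball_iff {c : Plane} {r : ℝ} (hr : 0 < r) (p : ℤ × ℤ) :
    pt p ∈ Metric.ball c r ↔ sd (c 0) (c 1) p < r ^ 2 := by
  rw [Metric.mem_ball, ← dist_pt, sq_lt_sq₀ dist_nonneg hr.le]

lemma enclosed_eq {c : Plane} {r : ℝ} (hr : 0 < r) :
    enclosed c r = pt '' enc (c 0) (c 1) (r ^ 2) := by
  ext v
  constructor
  · rintro ⟨h1, h2⟩
    obtain ⟨p, rfl⟩ := exists_pt h1
    exact ⟨p, (mem_ball_iff hr p).1 h2, rfl⟩
  · rintro ⟨p, hp, rfl⟩
    exact ⟨pt_mem p, (mem_ball_iff hr p).2 hp⟩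

lemma encard_eq {c : Plane} {r : ℝ} (hr : 0 < r) :
    (enclosed c r).encard = cnt (c 0) (c 1) (r ^ 2) := by
  rw [enclosed_eq hr, pt_inj.encard_image]
  exact ((enc_finite _ _ _).cast_ncard_eq).symm

/-! ### The certificate -/

/-- The regions around the critical centres. -/
def nb (a b h : ℕ) : Bool := near 288 160 39 a b h || near 160 288 39 a b h

lemma cert : chk 832 387328000 24 1750 nb 14 0 0 416 = true := by decide +kernel

lemma core : 1748 ≤ boxCount 832 387328000 24 249 327 121 199 := by decide +kernel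

lemma S_eq : (((387328000 : ℕ) : ℝ) / ((832 : ℕ) : ℝ) ^ 2) = 189125 / 338 := by norm_num

lemma pair_bound {x y : ℝ} (h1 : 249 ≤ x * 832) (h2 : x * 832 ≤ 327) (h3 : 121 ≤ y * 832)
    (h4 : y * 832 ≤ 199) {p q : ℤ × ℤ} (hpq : p ≠ q)
    (hp0 : sd (9 / 26) (5 / 26) p = 189125 / 338) (hq0 : sd (9 / 26) (5 / 26) q = 189125 / 338)
    (hp : sd x y p < 189125 / 338) (hq : sd x y q < 189125 / 338) :
    1750 ≤ cnt x y (189125 / 338) := by
  rw [← S_eq] at *
  have := near_count (M := 832) (S := 387328000) (a := 249) (a' := 327) (b := 121) (b' := 199)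
    (by norm_num) (by norm_num) (by norm_num) (x₀ := 9 / 26) (y₀ := 5 / 26) (x := x) (y := y)
    (by norm_num) (by norm_num) (by norm_num) (by norm_num) (by norm_num) (by norm_num)
    (by norm_num) (by norm_num) (by norm_num; linarith) (by norm_num; linarith)
    (by norm_num; linarith) (by norm_num; linarith) (by linarith) (by linarith)
    (by linarith) (by linarith) 24
    {p, q}
    (by
      intro a ha
      simp only [Finset.mem_insert, Finset.mem_singleton] at ha
      rcases ha with rfl | rfl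
      · exact hp0.ge
      · exact hq0.ge)
    (by
      intro a ha
      simp only [Finset.mem_insert, Finset.mem_singleton] at ha
      rcases ha with rfl | rfl
      · exact hp
      · exact hq)
  have c := core
  rw [Finset.card_pair hpq] at this
  omega

lemma lower_near {x y : ℝ} (h1 : 249 ≤ x * 832) (h2 : x * 832 ≤ 327) (h3 : 121 ≤ y * 832)
    (h4 : y * 832 ≤ 199) (hne : ¬ (x = 9 / 26 ∧ y = 5 / 26)) :
    1750 ≤ cnt x y (189125 / 338) := by
  obtain ⟨w, hw⟩ : ∃ w : ℝ, w = x - 9 / 26 := ⟨_, rfl⟩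
  obtain ⟨v, hv⟩ : ∃ v : ℝ, v = y - 5 / 26 := ⟨_, rfl⟩
  have ex : x = w + 9 / 26 := by linarith
  have ey : y = v + 5 / 26 := by linarith
  subst ex ey
  have hq1 : w ^ 2 ≤ |w| / 20 := by
    rcases abs_cases w with ⟨h, _⟩ | ⟨h, _⟩ <;> rw [h] <;> nlinarith
  have hq2 : v ^ 2 ≤ |v| / 20 := by
    rcases abs_cases v with ⟨h, _⟩ | ⟨h, _⟩ <;> rw [h] <;> nlinarith
  have hpos : 0 < |w| + |v| := by
    rcases eq_or_ne w 0 with h5 | h5
    · rcases eq_or_ne v 0 with h6 | h6
      · exact absurd ⟨by rw [h5]; norm_num, by rw [h6]; norm_num⟩ hne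
      · have := abs_pos.2 h6
        have := abs_nonneg w
        linarith
    · have := abs_pos.2 h5
      have := abs_nonneg v
      linarith
  have fin : ∀ p q : ℤ × ℤ, p ≠ q → sd (9 / 26) (5 / 26) p = 189125 / 338 →
      sd (9 / 26) (5 / 26) q = 189125 / 338 →
      (|w| + |v|) / 20 < ((26 * (p.1 : ℝ) - 9) * w + (26 * (p.2 : ℝ) - 5) * v) / 13 →
      (|w| + |v|) / 20 < ((26 * (q.1 : ℝ) - 9) * w + (26 * (q.2 : ℝ) - 5) * v) / 13 →
      1750 ≤ cnt (w + 9 / 26) (v + 5 / 26) (189125 / 338) := by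
    intro p q hpq hp0 hq0 hp hq
    refine pair_bound h1 h2 h3 h4 hpq hp0 hq0 ?_ ?_
    · simp only [sd] at hp0 ⊢
      nlinarith
    · simp only [sd] at hq0 ⊢
      nlinarith
  rcases abs_cases w with ⟨ew, sw⟩ | ⟨ew, sw⟩ <;> rcases abs_cases v with ⟨ev, sv⟩ | ⟨ev, sv⟩ <;>
    rw [ew, ev] at hpos fin
  · rcases le_total v w with h | h
    · exact fin (24, 0) (23, 7) (by decide) (by norm_num [sd]) (by norm_num [sd])
        (by push_cast; linarith) (by push_cast; linarith)
    · exact fin (23, 7) (-14, 19) (by decide) (by norm_num [sd]) (by norm_num [sd])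
        (by push_cast; linarith) (by push_cast; linarith)
  · exact fin (5, -23) (24, 0) (by decide) (by norm_num [sd]) (by norm_num [sd])
      (by push_cast; linarith) (by push_cast; linarith)
  · exact fin (-14, 19) (-23, 4) (by decide) (by norm_num [sd]) (by norm_num [sd])
      (by push_cast; linarith) (by push_cast; linarith)
  · rcases le_total v w with h | h
    · exact fin (-21, -10) (5, -23) (by decide) (by norm_num [sd]) (by norm_num [sd])
        (by push_cast; linarith) (by push_cast; linarith)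
    · exact fin (-23, 4) (-21, -10) (by decide) (by norm_num [sd]) (by norm_num [sd])
        (by push_cast; linarith) (by push_cast; linarith)

lemma lower {x y : ℝ} (hx0 : 0 ≤ x) (hx1 : x ≤ 1 / 2) (hy0 : 0 ≤ y) (hy1 : y ≤ 1 / 2)
    (hne : ¬ (x = 9 / 26 ∧ y = 5 / 26)) (hne' : ¬ (x = 5 / 26 ∧ y = 9 / 26)) :
    1750 ≤ cnt x y (189125 / 338) := by
  rw [← S_eq]
  rcases chk_sound (by norm_num) 14 0 0 416 (by norm_num) (by norm_num) cert x y
    (by push_cast; linarith) (by push_cast; linarith) (by push_cast; linarith)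
    (by push_cast; linarith) with h | h
  · exact h
  obtain ⟨a, b, h, hn, h1, h2, h3, h4⟩ := h
  rw [nb, Bool.or_eq_true] at hn
  rw [S_eq]
  rcases hn with hn | hn
  · obtain ⟨e1, e2, e3, e4⟩ := near_spec hn h1 h2 h3 h4
    norm_num at e1 e2 e3 e4
    exact lower_near (by linarith) (by linarith) (by linarith) (by linarith) hne
  · obtain ⟨e1, e2, e3, e4⟩ := near_spec hn h1 h2 h3 h4
    norm_num at e1 e2 e3 e4
    rw [cnt_swap]
    exact lower_near (by linarith) (by linarith) (by linarith) (by linarith)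
      (fun h => hne' ⟨h.2, h.1⟩)

lemma centre_count : cnt (9 / 26) (5 / 26) (189125 / 338) = 1748 := by
  have h := cnt_exact (M := 26) (X := 9) (Y := 5) (S := 378250) 24 (by norm_num) (by norm_num)
    (by norm_num) (by norm_num)
  norm_num at h
  rw [h]
  decide +kernel

lemma centre {s : ℝ} (hs : 189125 / 338 ≤ s) :
    1750 ≤ cnt (9 / 26) (5 / 26) s ∨ (s = 189125 / 338 ∧ cnt (9 / 26) (5 / 26) s = 1748) := by
  rcases lt_or_eq_of_le hs with h | h
  · left
    have := cnt_gt h {(24, 0), (23, 7)} (x := 9 / 26) (y := 5 / 26) (by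
      intro p hp
      simp only [Finset.mem_insert, Finset.mem_singleton] at hp
      rcases hp with rfl | rfl <;> norm_num [sd])
    rw [centre_count] at this
    have hcard : ({(24, 0), (23, 7)} : Finset (ℤ × ℤ)).card = 2 := by decide
    omega
  · right
    rw [← h]
    exact ⟨rfl, centre_count⟩

/-- The number of the enclosed points at the critical radius and beyond it. -/
lemma dich (x y : ℝ) {s : ℝ} (hs : 189125 / 338 ≤ s) :
    1750 ≤ cnt x y s ∨ (s = 189125 / 338 ∧ cnt x y s = 1748) := by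
  obtain ⟨x', y', h1, h2, h3, h4, h5⟩ := exists_red x y
  rw [h5]
  by_cases hc : x' = 9 / 26 ∧ y' = 5 / 26
  · obtain ⟨rfl, rfl⟩ := hc
    exact centre hs
  by_cases hc' : x' = 5 / 26 ∧ y' = 9 / 26
  · obtain ⟨rfl, rfl⟩ := hc'
    rw [cnt_swap]
    exact centre hs
  · left
    exact (lower h1 h2 h3 h4 hc hc').trans (cnt_mono hs)

lemma exist {t : ℝ} (ht : t < 189125 / 338) : ∃ x y s : ℝ, t < s ∧ cnt x y s = 1749 := by
  refine exist_near (q := 26) (N := 378250) (X := 9) (Y := 5) (V := 615) (W := -5) (A := 378249)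
    (m := 1748) (k := 1) (by norm_num) ?_ ?_ (by norm_num; exact ht)
  · have := centre_count
    norm_num at this ⊢
    exact this
  · rw [Set.ncard_eq_one]
    refine ⟨(24, 0), ?_⟩
    ext ⟨a, b⟩
    simp only [Set.mem_ofPred_eq, Set.mem_singleton_iff, Prod.mk.injEq]
    push_cast
    constructor
    · rintro ⟨h1, h2⟩
      have h3 : (26 * a - 9 - 615) ^ 2 + (26 * b - 5 + 5) ^ 2 = 0 := by
        apply le_antisymm
        · nlinarith
        · positivity
      have h4 : (26 * a - 9 - 615) ^ 2 = 0 := by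
        nlinarith [sq_nonneg (26 * a - 9 - 615), sq_nonneg (26 * b - 5 + 5)]
      have h5 : (26 * b - 5 + 5) ^ 2 = 0 := by
        nlinarith [sq_nonneg (26 * a - 9 - 615), sq_nonneg (26 * b - 5 + 5)]
      rw [sq_eq_zero_iff] at h4 h5
      omega
    · rintro ⟨rfl, rfl⟩
      norm_num

/-! ### The circle -/

/-- The centre of the circle. -/
noncomputable def c₀ : Plane := !₂[9 / 26, 5 / 26]

/-- The radius. -/
noncomputable def R : ℝ := √(189125 / 338)

lemma R_pos : 0 < R := Real.sqrt_pos.2 (by norm_num)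

lemma R_sq : R ^ 2 = 189125 / 338 := Real.sq_sqrt (by norm_num)

lemma mc_circle : IsMCCircle 1748 c₀ R := by
  refine ⟨⟨R_pos, ?_⟩, ?_⟩
  · rw [encard_eq R_pos, R_sq]
    have : cnt (c₀ 0) (c₀ 1) (189125 / 338) = 1748 := centre_count
    rw [this]
  · rintro c r ⟨h0, hc⟩
    rw [encard_eq h0] at hc
    have hc' : cnt (c 0) (c 1) (r ^ 2) = 1748 := by exact_mod_cast hc
    by_contra hcon
    push Not at hcon
    have hs : 189125 / 338 < r ^ 2 := (Real.sqrt_lt' h0).1 hcon
    rcases dich (c 0) (c 1) hs.le with h | ⟨h, _⟩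
    · omega
    · exact hs.ne' h

lemma not_mc : ¬ IsMC 1749 := by
  rintro ⟨c, r, ⟨h0, hc⟩, hmax⟩
  rw [encard_eq h0] at hc
  have hc' : cnt (c 0) (c 1) (r ^ 2) = 1749 := by exact_mod_cast hc
  have hs : r ^ 2 < 189125 / 338 := by
    by_contra hcon
    push Not at hcon
    rcases dich (c 0) (c 1) hcon with h | ⟨_, h⟩ <;> omega
  obtain ⟨x, y, s, h1, h2⟩ := exist hs
  have hs0 : 0 < s := lt_trans (by positivity) h1
  have := hmax !₂[x, y] (√s) ⟨Real.sqrt_pos.2 hs0, by
    rw [encard_eq (Real.sqrt_pos.2 hs0), Real.sq_sqrt hs0.le]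
    have : cnt ((!₂[x, y] : Plane) 0) ((!₂[x, y] : Plane) 1) s = 1749 := h2
    rw [this]⟩
  have h3 : s ≤ r ^ 2 := (Real.sqrt_le_left h0.le).1 this
  linarith

/-! ### No symmetries -/

/-- The lattice points on the circle. -/
def six : Finset (ℤ × ℤ) := {(-21, -10), (5, -23), (24, 0), (23, 7), (-14, 19), (-23, 4)}

lemma sd_six {p : ℤ × ℤ} (hp : p ∈ six) : sd (9 / 26) (5 / 26) p = 189125 / 338 := by
  simp only [six, Finset.mem_insert, Finset.mem_singleton] at hp
  rcases hp with rfl | rfl | rfl | rfl | rfl | rfl <;> norm_num [sd]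

lemma mem_six {p : ℤ × ℤ} (hp : sd (9 / 26) (5 / 26) p = 189125 / 338) : p ∈ six := by
  have key : ∀ a ∈ Finset.Icc (-24 : ℤ) 24, ∀ b ∈ Finset.Icc (-24 : ℤ) 24,
      (26 * a - 9) ^ 2 + (26 * b - 5) ^ 2 = 378250 → (a, b) ∈ six := by
    decide +kernel
  obtain ⟨a, b⟩ := p
  have h1 : (26 * (a : ℝ) - 9) ^ 2 + (26 * (b : ℝ) - 5) ^ 2 = 378250 := by
    simp only [sd] at hp
    linarith
  have h2 : (26 * a - 9) ^ 2 + (26 * b - 5) ^ 2 = 378250 := by exact_mod_cast h1
  refine key a ?_ b ?_ h2 <;> rw [Finset.mem_Icc] <;> constructor <;>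
    nlinarith [sq_nonneg (26 * a - 9), sq_nonneg (26 * b - 5)]

lemma onCircle_eq : onCircle c₀ R = pt '' (six : Set (ℤ × ℤ)) := by
  have hiff : ∀ p, pt p ∈ Metric.sphere c₀ R ↔ sd (9 / 26) (5 / 26) p = 189125 / 338 := by
    intro p
    rw [Metric.mem_sphere, ← pow_left_inj₀ dist_nonneg R_pos.le (two_ne_zero), dist_pt, R_sq]
    rfl
  ext v
  constructor
  · rintro ⟨h1, h2⟩
    obtain ⟨p, rfl⟩ := exists_pt h1
    exact ⟨p, mem_six ((hiff p).1 h2), rfl⟩
  · rintro ⟨p, hp, rfl⟩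
    exact ⟨pt_mem p, (hiff p).2 (sd_six hp)⟩

lemma dist_pt_pt (p q : ℤ × ℤ) :
    dist (pt p) (pt q) ^ 2 = (((p.1 - q.1) ^ 2 + (p.2 - q.2) ^ 2 : ℤ) : ℝ) := by
  rw [dist_sq]
  push_cast
  rfl

/-- An isometry that maps the set of the lattice points on the circle onto itself is the identity. -/
lemma isometry_eq_id {g : Plane → Plane} (hg : Isometry g) (h : g '' onCircle c₀ R = onCircle c₀ R) :
    g = id := by
  have lift : ∀ p ∈ six, ∃ q ∈ six, g (pt p) = pt q := by
    intro p hp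
    have h1 : g (pt p) ∈ g '' onCircle c₀ R := by
      rw [onCircle_eq]
      exact ⟨pt p, ⟨p, hp, rfl⟩, rfl⟩
    rw [h, onCircle_eq] at h1
    obtain ⟨q, hq, hqq⟩ := h1
    exact ⟨q, hq, hqq.symm⟩
  obtain ⟨a, ha, hga⟩ := lift (23, 7) (by decide)
  obtain ⟨b, hb, hgb⟩ := lift (24, 0) (by decide)
  obtain ⟨c, hc, hgc⟩ := lift (5, -23) (by decide)
  have h1 : (a.1 - b.1) ^ 2 + (a.2 - b.2) ^ 2 = 50 := by
    have h7 := dist_pt_pt a b
    rw [← hga, ← hgb, hg.dist_eq, dist_pt_pt] at h7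
    have h8 : ((a.1 - b.1) ^ 2 + (a.2 - b.2) ^ 2 : ℤ) = (23 - 24) ^ 2 + (7 - 0) ^ 2 := by
      exact_mod_cast h7.symm
    rw [h8]
    norm_num
  have h2 : (a.1 - c.1) ^ 2 + (a.2 - c.2) ^ 2 = 1224 := by
    have h7 := dist_pt_pt a c
    rw [← hga, ← hgc, hg.dist_eq, dist_pt_pt] at h7
    have h8 : ((a.1 - c.1) ^ 2 + (a.2 - c.2) ^ 2 : ℤ) = (23 - 5) ^ 2 + (7 - (-23)) ^ 2 := by
      exact_mod_cast h7.symm
    rw [h8]
    norm_num
  have key : ∀ a ∈ six, ∀ b ∈ six, ∀ c ∈ six, (a.1 - b.1) ^ 2 + (a.2 - b.2) ^ 2 = 50 →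
      (a.1 - c.1) ^ 2 + (a.2 - c.2) ^ 2 = 1224 → a = (23, 7) ∧ b = (24, 0) ∧ c = (5, -23) := by
    decide
  obtain ⟨rfl, rfl, rfl⟩ := key a ha b hb c hc h1 h2
  funext x
  have e1 : dist (g x) (pt (23, 7)) ^ 2 = dist x (pt (23, 7)) ^ 2 := by
    nth_rw 1 [← hga]
    rw [hg.dist_eq]
  have e2 : dist (g x) (pt (24, 0)) ^ 2 = dist x (pt (24, 0)) ^ 2 := by
    nth_rw 1 [← hgb]
    rw [hg.dist_eq]
  have e3 : dist (g x) (pt (5, -23)) ^ 2 = dist x (pt (5, -23)) ^ 2 := by
    nth_rw 1 [← hgc]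
    rw [hg.dist_eq]
  rw [dist_comm, dist_pt, dist_comm, dist_pt] at e1 e2 e3
  simp only [sd] at e1 e2 e3
  norm_num at e1 e2 e3
  have f0 : g x 0 = x 0 := by linarith
  have f1 : g x 1 = x 1 := by linarith
  ext i
  fin_cases i
  · exact f0
  · exact f1

lemma IsReflection.isometry {g : Plane → Plane} (hg : IsReflection g) : Isometry g := by
  obtain ⟨u, t, hu, hg⟩ := hg
  refine Isometry.of_dist_eq fun x y => ?_
  have h1 : dist (g x) (g y) ^ 2 = dist x y ^ 2 := by
    rw [dist_eq_norm, dist_eq_norm, hg, hg]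
    have e : x - (2 * (inner ℝ u x - t)) • u - (y - (2 * (inner ℝ u y - t)) • u) =
        (x - y) - (2 * inner ℝ u (x - y)) • u := by
      rw [inner_sub_right]
      module
    rw [e, norm_sub_sq_real, norm_smul, inner_smul_right, mul_pow, hu, Real.norm_eq_abs, sq_abs,
      real_inner_comm]
    ring
  exact (pow_left_inj₀ dist_nonneg dist_nonneg (two_ne_zero)).1 h1

lemma IsReflection.ne_id {g : Plane → Plane} (hg : IsReflection g) : g ≠ id := by
  obtain ⟨u, t, hu, hg⟩ := hg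
  intro h
  have h1 := hg ((t + 1) • u)
  rw [h, inner_smul_right, real_inner_self_eq_norm_sq, hu] at h1
  have h2 : (2 : ℝ) • u = 0 := by
    have : ((2 : ℝ) * ((t + 1) * 1 ^ 2 - t)) • u = 0 := by
      have := sub_eq_self.1 h1.symm
      exact this
    convert this using 2
    ring
  have h3 : u = 0 := by
    rcases smul_eq_zero.1 h2 with h | h
    · norm_num at h
    · exact h
  rw [h3, norm_zero] at hu
  exact zero_ne_one hu

/-- `1748` is a strong MC number, and the circle with centre `(9/26, 5/26)` and radius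
`√(189125 / 338)` is an MC-circle of it.  It carries six lattice points, and the only isometry that
maps this set of six points onto itself is the identity; in particular, no lattice-invariant reflection
does.  So the assertion of the problem is false. -/
theorem result :
    (IsStrong 1748 ∧ IsMCCircle 1748 c₀ R ∧ (onCircle c₀ R).encard = 6 ∧
      (∀ g : Plane → Plane, Isometry g → g '' onCircle c₀ R = onCircle c₀ R → g = id) ∧
      ¬ HasMirrorSymmetry (onCircle c₀ R)) ∧
    ¬ ∀ n : ℕ, IsStrong n → ∀ c r, IsMCCircle n c r → HasMirrorSymmetry (onCircle c r) := by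
  have h1 : IsStrong 1748 := ⟨⟨_, _, mc_circle⟩, not_mc⟩
  have h2 : ¬ HasMirrorSymmetry (onCircle c₀ R) := by
    rintro ⟨g, ⟨hg, -⟩, h⟩
    exact hg.ne_id (isometry_eq_id hg.isometry h)
  refine ⟨⟨h1, mc_circle, ?_, fun g hg h => isometry_eq_id hg h, h2⟩,
    fun h => h2 (h _ h1 _ _ mc_circle)⟩
  rw [onCircle_eq, pt_inj.encard_image, Set.encard_coe_eq_coe_finsetCard]
  rfl

end Pool.Agent.Results.MP_719c9c_nt.Asymmetric
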